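import Pool.Agent.W661.RC.Stm

/-! RC: improvement of a projection. -/

set_option autoImplicit false

namespace Pool.Agent.W371.RC.IMP

open Matrix Pool.Agent.W661.RC
open scoped ComplexOrder

noncomputable section

lemma hs_eq {n : Type} [Fintype n] (x : Matrix n n ℂ) : hs x = tr (xᴴ * x) := by
  unfold hs tr
  simp only [Matrix.trace, Matrix.diag, Matrix.mul_apply, Matrix.conjTranspose_apply, Complex.re_sum]
  rw [Finset.sum_comm]
  refine Finset.sum_congr rfl fun i _ => Finset.sum_congr rfl fun j _ => ?_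
  have h : star (x j i) * x j i = ((‖x j i‖ ^ 2 : ℝ) : ℂ) := by
    rw [Complex.star_def, Complex.conj_mul']
    push_cast
    rfl
  rw [h, Complex.ofReal_re]

lemma hs_pr {n : Type} [Fintype n] {f : Matrix n n ℂ} (hf : IsPr f) : hs f = tr f := by
  rw [hs_eq, hf.1, hf.2]

lemma pr_psd {n : Type} [Fintype n] {f : Matrix n n ℂ} (hf : IsPr f) : f.PosSemidef := by
  have := Matrix.posSemidef_conjTranspose_mul_self f
  rwa [hf.1, hf.2] at this

lemma pr_compl {d : ℕ} {f : Mt d} (hf : IsPr f) : IsPr (1 - f) := by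
  refine ⟨by rw [conjTranspose_sub, conjTranspose_one, hf.1], ?_⟩
  rw [sub_mul, mul_sub, mul_sub, hf.2]; simp

lemma hs_nonneg {n : Type} [Fintype n] (x : Matrix n n ℂ) : 0 ≤ hs x := by
  unfold hs
  exact Finset.sum_nonneg fun i _ => Finset.sum_nonneg fun j _ => by positivity

theorem main (hL : LevP) : ImpP := by
  intro d k C η δ S f hη hC hf hD
  set y := S.Φ f with hy
  have h1 : y.PosSemidef := S.pos f (pr_psd hf)
  have h2 : Le y 1 := by
    unfold Le
    have := S.pos (1 - f) (pr_psd (pr_compl hf))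
    rwa [map_sub, S.one] at this
  have h3 : tr (S.D * (f * fᴴ + fᴴ * f)) ≤ δ * hs f := by
    rw [hf.1, hf.2, hs_pr hf, mul_add]
    unfold tr at hD ⊢
    rw [Matrix.trace_add, Complex.add_re]
    linarith
  obtain ⟨h4, h5⟩ := S.smooth f h3
  have h6 : hs y ≤ hs f := S.hsle f
  obtain ⟨e, he, -, hle, -, hen, -, hhs⟩ := hL d k S.u y (1 / 4) (3 / 4) S.hu h1 h2 le_rfl
    (by norm_num) le_rfl
  have htf : 0 ≤ tr f := by rw [← hs_pr hf]; exact hs_nonneg f
  rw [hs_pr hf] at h4 h5 h6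
  refine ⟨e, he, ?_, ?_, ?_⟩
  · refine hen.trans ?_
    have h7 : 2 * √(k : ℝ) / (1 / 4 * (3 / 4 - 1 / 4)) = 16 * √(k : ℝ) := by ring
    rw [h7]
    have hen0 : 0 ≤ en S.u y := Finset.sum_nonneg fun s _ => hs_nonneg _
    have h8 : √(hs y * en S.u y) ≤ √(η) * tr f := by
      have h9 : hs y * en S.u y ≤ η * tr f ^ 2 := by
        calc hs y * en S.u y ≤ tr f * (η * tr f) := mul_le_mul h6 h4 hen0 htf
          _ = _ := by ring
      refine (Real.sqrt_le_sqrt h9).trans ?_
      rw [Real.sqrt_mul hη, Real.sqrt_sq htf]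
    calc 16 * √(k : ℝ) * √(hs y * en S.u y) ≤ 16 * √(k : ℝ) * (√η * tr f) := by gcongr
      _ = 16 * √((k : ℝ) * η) * tr f := by rw [Real.sqrt_mul (Nat.cast_nonneg k)]; ring
  · refine (hhs f hf).trans ?_
    have : (0 : ℝ) ≤ 16 := by norm_num
    exact mul_le_mul_of_nonneg_left h5 this
  · unfold Le at hle ⊢
    have h10 : (4 : ℂ) • y - e = (4 : ℂ) • (y - (((1 / 4 : ℝ) : ℂ)) • e) := by
      rw [smul_sub, smul_smul]
      push_cast
      norm_num
    rw [h10]
    exact hle.smul (by norm_num)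

end

end Pool.Agent.W371.RC.IMP
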